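import Pool.Agent.TH133.Defs

/-!
# Direct sum decompositions of Chow motives: definition
-/

open CategoryTheory AlgebraicGeometry

set_option autoImplicit false

universe u v w

namespace Pool.Agent.T9h74.RV

open Pool.Agent.H914 Pool.Agent.H914.VarClass Pool.Agent.H914.VarClass.Obj Pool.Agent.W492.BB
  Pool.Agent.W550.Corr Pool.Agent.TH133

variable {k : Type u} [Field k] {𝒱 : VarClass k}

/-- The correspondences `Γ j ∈ CH^(dim X_j + r_j)(X_j × Y)` and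
`Γ' j ∈ CH^(dim Y - r_j)(Y × X_j)` are mutually inverse isomorphisms of Chow motives between
`⨁_j h(X_j)(-r_j)` and `h(Y)`. -/
structure IsMotivicSum (C : TheoryData.{u, v, 0} 𝒱 ℚ) (Y : 𝒱.Obj) {ι : Type} [Fintype ι]
    (X : ι → 𝒱.Obj) (r : ι → ℕ) (Γ : ∀ j, C.A ((X j).prod Y)) (Γ' : ∀ j, C.A (Y.prod (X j))) :
    Prop where
  dim_le : ∀ j, (X j).dim + r j ≤ Y.dim
  deg : ∀ j, C.Deg (((X j).dim : ℤ) + r j) (Γ j)
  deg' : ∀ j, C.Deg ((Y.dim : ℤ) - r j) (Γ' j)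
  self : ∀ j, C.comp (Γ j) (Γ' j) = dg C (X j)
  ne : ∀ i j, i ≠ j → C.comp (Γ i) (Γ' j) = 0
  sum : ∑ j, C.comp (Γ' j) (Γ j) = dg C Y

/-- The summands of the motive of a blow-up of `Z` along `W`: `Z`, and `c - 1` times `W`. -/
def summand (W Z : 𝒱.Obj) (c : ℕ) (j : Option (Fin (c - 1))) : 𝒱.Obj := j.elim Z fun _ => W

/-- The twists in the motive of a blow-up: `0` for `Z`, and `1, …, c - 1` for the copies of `W`. -/
def twist (c : ℕ) (j : Option (Fin (c - 1))) : ℕ := j.elim 0 fun s => (s : ℕ) + 1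

/-- The Chow motive of `Y` is `h(Z) ⊕ h(W)(-1) ⊕ ⋯ ⊕ h(W)(-(c-1))`. -/
def BlowUpFormula (C : TheoryData.{u, v, 0} 𝒱 ℚ) (W Z Y : 𝒱.Obj) (c : ℕ) : Prop :=
  ∃ (Γ : ∀ j, C.A ((summand W Z c j).prod Y)) (Γ' : ∀ j, C.A (Y.prod (summand W Z c j))),
    IsMotivicSum C Y (summand W Z c) (twist c) Γ Γ'

/-- The group `F^0 CH^i(Y)` is the same for all Chow-Künneth decompositions of `Y`. -/
def IndepF0 {C : TheoryData.{u, v, 0} 𝒱 ℚ} {K : Type w} [Field K]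
    (H : WeilTheoryData.{u, v, w} C K) (Y : 𝒱.Obj) (i : ℕ) : Prop :=
  ∀ π π', IsCK H Y π → IsCK H Y π' → ckFil C π i 0 = ckFil C π' i 0

/-- If `dim Y = 2m`, then `F^0 CH^m(Y) = CH^m(Y)` for one Chow-Künneth decomposition of `Y`. -/
def HasB0Mid {C : TheoryData.{u, v, 0} 𝒱 ℚ} {K : Type w} [Field K]
    (H : WeilTheoryData.{u, v, w} C K) (Y : 𝒱.Obj) : Prop :=
  ∀ m : ℕ, Y.dim = 2 * m → ∃ π, IsCK H Y π ∧ ckFil C π m 0 = C.gr Y m

end Pool.Agent.T9h74.RV
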