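import Pool.Agent.T9h74.RV.Mid

/-!
# (C) for all varieties and for rational varieties: the main equivalence
-/

open CategoryTheory AlgebraicGeometry

set_option autoImplicit false

universe u v w

namespace Pool.Agent.T9h74.RV

open Pool.Agent.H914 Pool.Agent.H914.VarClass Pool.Agent.H914.VarClass.Obj Pool.Agent.W492.BB
  Pool.Agent.W550.Corr Pool.Agent.TH133 Pool.Agent.Y110 Pool.Agent.TH829.Kim Pool.Agent.T9h37.MC

set_option linter.unusedSectionVars false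

variable {k : Type u} [Field k] {𝒱 : VarClass k}

section

variable {C : TheoryData.{u, v, 0} 𝒱 ℚ} [hC : IsChowProj C] {K : Type w} [Field K]
  {H : WeilTheoryData.{u, v, w} C K} [hH : IsWeilProj H] {X Y Z W : 𝒱.Obj} {c i : ℕ}

include hC hH

lemma hasCK_summand (hW : HasCK H W) (hZ : HasCK H Z) : ∀ j, HasCK H (summand W Z c j)
  | none => hZ
  | some _ => hW

lemma hasCK_sq (hX : HasCK H X) : HasCK H (X.prod X) := by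
  obtain ⟨π, hπ⟩ := hX
  exact ⟨_, hπ.prod hπ⟩

theorem local_part {ι : Type} [Fintype ι] {Xs : ι → 𝒱.Obj} {r : ι → ℕ}
    {Γ : ∀ j, C.A ((Xs j).prod Y)} {Γ' : ∀ j, C.A (Y.prod (Xs j))}
    (hS : IsMotivicSum C Y Xs r Γ Γ') (hCK : ∀ j, HasCK H (Xs j)) (hX : HasCK H X) (j : ι)
    (hj : Xs j = X.prod X) (hY : IndepF0 H Y (X.dim + r j)) : MurreC H X ∧ NoPhantoms H X := by
  have h1 := b0At_of_sum hS hCK j X.dim (b0At_of_c0At Y _ hY)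
  rw [hj] at h1
  obtain ⟨π, hπ⟩ := hX
  exact ⟨murreC_of_mid h1, noPhantoms_of_mid h1 (P := π) hπ⟩

/-- The part for the varieties in `𝓡`. -/
theorem blowUp_part {s : ℕ} (hs : 1 ≤ s) (hX : HasCK H X) (hZ : HasCK H Z)
    (hS : BlowUpFormula C (X.prod X) Z Y (2 * s)) (hd : Y.dim = 2 * (X.dim + s)) :
    ((∀ m : ℕ, Y.dim = 2 * m → IndepF0 H Y m) → MurreC H X) ∧
    (NoPhantoms H Y → NoPhantoms H X) := by
  obtain ⟨Γ, Γ', hS⟩ := hS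
  refine ⟨fun h => ?_, fun h => noPhantoms_of_sq (noPhantoms_of_sum hS h
    (some ⟨s - 1, by omega⟩))⟩
  have e : X.dim + twist (2 * s) (some ⟨s - 1, by omega⟩) = X.dim + s := by
    change X.dim + (s - 1 + 1) = X.dim + s
    omega
  exact (local_part hS (hasCK_summand (hasCK_sq hX) hZ) hX (some ⟨s - 1, by omega⟩) rfl
    (by rw [e]; exact h _ hd)).1

end

theorem main {C : TheoryData.{u, v, 0} 𝒱 ℚ} [IsChowProj C] {K : Type w} [Field K]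
    {H : WeilTheoryData.{u, v, w} C K} [IsWeilProj H] :
    (∀ (X Y : 𝒱.Obj) (ι : Type) [Fintype ι] (Xs : ι → 𝒱.Obj) (r : ι → ℕ)
      (Γ : ∀ j, C.A ((Xs j).prod Y)) (Γ' : ∀ j, C.A (Y.prod (Xs j))),
      IsMotivicSum C Y Xs r Γ Γ' → (∀ j, HasCK H (Xs j)) → HasCK H X → ∀ j : ι,
      Xs j = X.prod X → IndepF0 H Y (X.dim + r j) → MurreC H X ∧ NoPhantoms H X) ∧
    ∀ 𝓡 : Set 𝒱.Obj, (∀ X : 𝒱.Obj, HasCK H X → ∃ Y ∈ 𝓡, ∃ (Z : 𝒱.Obj) (s : ℕ), 1 ≤ s ∧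
      Y.dim = 2 * (X.dim + s) ∧ HasCK H Z ∧ BlowUpFormula C (X.prod X) Z Y (2 * s)) →
      GradedCommutative H →
      List.TFAE [∀ X : 𝒱.Obj, MurreC H X,
        ∀ X : 𝒱.Obj, MurreB0 H X,
        ∀ X : 𝒱.Obj, HasCK H X → NoPhantoms H X ∧ HasB0 H X,
        ∀ X : 𝒱.Obj, HasCK H X → IsKimuraFinite C (ratFam C) X ∧ HasB0 H X,
        ∀ X : 𝒱.Obj, HasCK H X → UniqueUpToConjugation H X ∧ HasB0 H X,
        ∀ Y ∈ 𝓡, MurreC H Y,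
        ∀ Y ∈ 𝓡, ∀ m : ℕ, Y.dim = 2 * m → IndepF0 H Y m,
        ∀ Y ∈ 𝓡, HasCK H Y → NoPhantoms H Y ∧ HasB0Mid H Y,
        ∀ Y ∈ 𝓡, HasCK H Y → IsKimuraFinite C (ratFam C) Y ∧ HasB0Mid H Y,
        ∀ Y ∈ 𝓡, HasCK H Y → UniqueUpToConjugation H Y ∧ HasB0Mid H Y] := by
  refine ⟨fun X Y ι _ Xs r Γ Γ' hS hCK hX j hj hY => local_part hS hCK hX j hj hY, ?_⟩
  intro 𝓡 h𝓡 hg
  have h1 := tfae (H := H) hg
  have h13 : (∀ X : 𝒱.Obj, MurreC H X) ↔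
      ∀ X : 𝒱.Obj, HasCK H X → NoPhantoms H X ∧ HasB0 H X := h1.out 0 2
  have h14 : (∀ X : 𝒱.Obj, MurreC H X) ↔
      ∀ X : 𝒱.Obj, HasCK H X → IsKimuraFinite C (ratFam C) X ∧ HasB0 H X := h1.out 0 3
  have h15 : (∀ X : 𝒱.Obj, MurreC H X) ↔
      ∀ X : 𝒱.Obj, HasCK H X → UniqueUpToConjugation H X ∧ HasB0 H X := h1.out 0 4
  have hmid : ∀ {Y : 𝒱.Obj}, HasB0 H Y → HasB0Mid H Y :=
    fun ⟨π, hπ, hB⟩ m _ => ⟨π, hπ, hB m⟩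
  have hind : ∀ {Y : 𝒱.Obj} {m : ℕ}, (∀ π, IsCK H Y π → ckFil C π m 0 = C.gr Y m) →
      IndepF0 H Y m := fun h π π' hπ hπ' => (h π hπ).trans (h π' hπ').symm
  tfae_have 1 ↔ 2 := h1.out 0 1
  tfae_have 1 ↔ 3 := h13
  tfae_have 1 ↔ 4 := h14
  tfae_have 1 ↔ 5 := h15
  tfae_have 1 → 6 := fun h Y _ => h Y
  tfae_have 6 → 7 := fun h Y hY m _ π π' h1 h2 => h Y hY π π' h1 h2 m 0
  tfae_have 7 → 1 := by
    intro h X π π' hπ hπ'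
    obtain ⟨Y, hY, Z, s, hs, hd, hZ, hS⟩ := h𝓡 X ⟨π, hπ⟩
    exact (blowUp_part hs ⟨π, hπ⟩ hZ hS hd).1 (h Y hY) π π' hπ hπ'
  tfae_have 1 → 8 := fun h Y _ hCK => ⟨(h13.1 h Y hCK).1, hmid (h13.1 h Y hCK).2⟩
  tfae_have 1 → 10 := fun h Y _ hCK => ⟨(h15.1 h Y hCK).1, hmid (h15.1 h Y hCK).2⟩
  tfae_have 8 → 9 := by
    intro h Y hY hCK
    have hP : ∀ X : 𝒱.Obj, HasCK H X → NoPhantoms H X := by
      intro X hX
      obtain ⟨Y, hY, Z, s, hs, hd, hZ, hS⟩ := h𝓡 X hX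
      by_cases hCK' : HasCK H Y
      · exact (blowUp_part hs hX hZ hS hd).2 (h Y hY hCK').1
      · exfalso
        obtain ⟨Γ, Γ', hS⟩ := hS
        choose σ hσ using hasCK_summand (c := 2 * s) (hasCK_sq hX) hZ
        exact hCK' ⟨_, sumCK_isCK hS hσ⟩
    obtain ⟨π, hπ⟩ := hCK
    exact ⟨isKimuraFinite_of_noPhantoms hg hπ hP, (h Y hY ⟨π, hπ⟩).2⟩
  tfae_have 9 → 7 := by
    intro h Y hY m hm π π' hπ hπ'
    obtain ⟨a, b⟩ := h Y hY ⟨π, hπ⟩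
    exact hind (b0At_of_kimura a m (b m hm)) π π' hπ hπ'
  tfae_have 10 → 7 := by
    intro h Y hY m hm π π' hπ hπ'
    obtain ⟨a, b⟩ := h Y hY ⟨π, hπ⟩
    exact hind (b0At_of_unique a m (b m hm)) π π' hπ hπ'
  tfae_finish

end Pool.Agent.T9h74.RV
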