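import Pool.Agent.T9h74.RV.Sum

/-!
# One group decides: `F^0` of the Chow group of middle codimension
-/

open CategoryTheory AlgebraicGeometry

set_option autoImplicit false

universe u v w

namespace Pool.Agent.T9h74.RV

open Pool.Agent.H914 Pool.Agent.H914.VarClass Pool.Agent.H914.VarClass.Obj Pool.Agent.W492.BB
  Pool.Agent.W550.Corr Pool.Agent.TH133 Pool.Agent.Y110 Pool.Agent.TH829.Kim Pool.Agent.T9h37.MC

set_option linter.unusedSectionVars false

variable {k : Type u} [Field k] {𝒱 : VarClass k} {C : TheoryData.{u, v, 0} 𝒱 ℚ}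
  [hC : IsChowProj C] {K : Type w} [Field K]
  {H : WeilTheoryData.{u, v, w} C K} [hH : IsWeilProj H] {X Y Z W : 𝒱.Obj}

include hC hH

/-- `F^0 CH^l(X) = CH^l(X)` for all decompositions if `F^0 CH^l(X)` is independent of the
decomposition; one codimension at a time. -/
theorem b0At_of_c0At (X : 𝒱.Obj) (l : ℕ)
    (hX : ∀ π π', IsCK H X π → IsCK H X π' → ckFil C π l 0 = ckFil C π' l 0) :
    ∀ π, IsCK H X π → ckFil C π l 0 = C.gr X l := by
  suffices hs : ∀ π, IsCK H X π → ∀ (j : ℕ) (x : C.A X), x ∈ C.gr X l → 2 * l < j →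
      C.act (π j) x = 0 by
    intro π hπ
    ext x
    rw [hπ.mem_ckFil]
    exact ⟨fun h' => h'.1, fun hx => ⟨hx, fun j hj => hs π hπ j x hx (by omega)⟩⟩
  intro π hπ j x hx hj
  by_cases hjd : 2 * X.dim < j
  · rw [hπ.out j hjd, TheoryData.act_zero]
  obtain ⟨u0, hu0, v0, hv0, huv⟩ := exists_dual_pair (C := C) (H := H) X (l := l) (by omega)
  set α := C.act (π j) x with hα
  have hαm : α ∈ C.gr X l := act_mem0 C (hπ.deg j) hx
  have hαj : C.act (π j) α = α := by rw [hα, ← C.act_comp, hπ.idem]
  let P : ℕ → Cor C X := π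
  have hP : IsCK H X P := hπ
  have hPm : ∀ i, P i ∈ cor0 C X := hπ.deg
  have hPo : ∀ i j, i ≠ j → P i * P j = 0 := fun i j hij => by rw [hP.mul_eq, if_neg hij]
  have hPi : ∀ i, P i * P i = P i := fun i => by rw [hP.mul_eq, if_pos rfl]
  let E : Cor C X := C.ext v0 α
  have hE : E ∈ cor0 C X := by
    have := ext_mem (C := C) (H := H) hv0 hαm
    rwa [sub_add_cancel] at this
  let n : Cor C X := P j * E * P (2 * l)
  have hn : n ∈ cor0 C X := (cor0 C X).mul_mem ((cor0 C X).mul_mem (hPm _) hE) (hPm _)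
  have hnn : n * n = 0 := by
    have : n * n = P j * E * (P (2 * l) * P j) * E * P (2 * l) := by
      simp only [n, mul_assoc]
    rw [this, hPo _ _ (by omega), mul_zero, zero_mul, zero_mul]
  have hnact : ∀ a : H.A X, actH C X H n a = 0 := by
    have h0 : actH C X H n = 0 := by
      apply ext_gr H
      intro m a ha
      rw [LinearMap.zero_apply]
      simp only [n]
      rw [map_mul, map_mul, Module.End.mul_apply, Module.End.mul_apply, hP.actH_eq' _ _ ha]
      split_ifs with hm
      · rw [hP.actH_eq' _ _ (actH_mem0 hE ha), if_neg (by omega)]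
      · rw [map_zero, map_zero]
    intro a
    rw [h0, LinearMap.zero_apply]
  have huv' : (1 + n) * (1 - n) = 1 := by
    rw [mul_sub, mul_one, add_mul, one_mul, hnn]; abel
  have hvu' : (1 - n) * (1 + n) = 1 := by
    rw [mul_add, mul_one, sub_mul, one_mul, hnn]; abel
  have hconj := hP.conj (u := 1 + n) (v := 1 - n) ((cor0 C X).add_mem (cor0 C X).one_mem hn)
    ((cor0 C X).sub_mem (cor0 C X).one_mem hn) huv' hvu'
    (fun a => by rw [map_add, map_one, LinearMap.add_apply, hnact, add_zero]; rfl)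
  have hF := hX _ _ hconj hπ
  -- the class `y = (1 + n)_* (π_{2l})_* u0`
  set w := C.act (π (2 * l)) u0 with hw
  have hwm : w ∈ C.gr X l := act_mem0 C (hπ.deg _) hu0
  have hact : ∀ (a b : Cor C X) (z : C.A X), actC C X (a * b) z = actC C X a (actC C X b z) :=
    fun a b z => by rw [map_mul]; rfl
  have hPw : ∀ i, actC C X (P i) w = if i = 2 * l then w else 0 := by
    intro i
    have h1 : w = actC C X (P (2 * l)) u0 := rfl
    split_ifs with hi
    · rw [h1, ← hact, hi, hPi]
    · rw [h1, ← hact, hPo _ _ hi, map_zero]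
      rfl
  have hnw : actC C X n w = α := by
    simp only [n]
    rw [hact, hact, hPw, if_pos rfl]
    have h1 : actC C X E w = α := by
      change C.act (C.ext v0 α) w = α
      rw [act_ext (H := H)]
      have h2 : C.push (snd X X) (C.pull (fst X X) (v0 * w)) = 1 := by
        rw [← huv]
        apply deg_eq_of_cl (H := H)
        · have := C.mul_mem hv0 hwm
          rwa [sub_add_cancel] at this
        · have := C.mul_mem hv0 hu0
          rwa [sub_add_cancel] at this
        · rw [map_mul, map_mul, hw, cl_act H]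
          congr 1
          have h3 := H.cl_mem hu0
          exact hπ.act_self (2 * l) _ (by exact_mod_cast h3)
      rw [h2, one_mul]
    rw [h1]
    exact hαj
  have hy : w + α ∈ ckFil C (fun i => ((1 + n) * P i * (1 - n) : Cor C X)) l 0 := by
    rw [hconj.mem_ckFil]
    refine ⟨Submodule.add_mem _ hwm hαm, fun i hi => ?_⟩
    have h1 : w + α = actC C X (1 + n) w := by
      rw [map_add, map_one, LinearMap.add_apply, hnw]
      rfl
    have h2 : actC C X ((1 + n) * P i * (1 - n)) (w + α) = 0 := by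
      rw [h1, ← hact]
      have h3 : (1 + n) * P i * (1 - n) * (1 + n) = (1 + n) * P i := by
        rw [mul_assoc, hvu', mul_one]
      rw [h3, hact, hPw, if_neg (by omega), map_zero]
    exact h2
  rw [hF, hπ.mem_ckFil] at hy
  have h1 := hy.2 j (by omega)
  rw [act_map_add, hαj] at h1
  have h2 : C.act (π j) w = 0 := by
    have := hPw j
    rw [if_neg (by omega)] at this
    exact this
  rw [h2, zero_add] at h1
  exact h1

/-- Correspondences do not raise the weights if `F^0 = CH` in the middle codimension of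
`X × X`. -/
lemma comp_zero_mid (hB : ∀ π, IsCK H (X.prod X) π → ckFil C π X.dim 0 = C.gr (X.prod X) X.dim)
    {π ρ : ℕ → C.A (X.prod X)} (h : IsCK H X π) (h' : IsCK H X ρ) {j b : ℕ}
    {γ : C.A (X.prod X)} (hγ : γ ∈ C.gr (X.prod X) X.dim) (hij : j < b) :
    C.comp (C.comp (π j) γ) (ρ b) = 0 := by
  by_cases hj : j ≤ 2 * X.dim
  · apply comp_zero_of_prod (H := H) h h' hj
    have h1 := h.dual.prod h'
    have h2 := hB _ h1
    have h3 : γ ∈ C.gr (X.prod X) (X.dim : ℕ) := hγ
    rw [← h2, h1.mem_ckFil] at h3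
    exact h3.2 _ (by omega)
  · rw [h.out j (by omega), zero_comp, zero_comp]

lemma tri_mid (hB : ∀ π, IsCK H (X.prod X) π → ckFil C π X.dim 0 = C.gr (X.prod X) X.dim)
    {P Q : ℕ → Cor C X} (hP : IsCK H X P)
    (hQ : IsCK H X Q) {j b : ℕ} (hjb : j < b) {γ : Cor C X} (hγ : γ ∈ cor0 C X) :
    Q b * γ * P j = 0 := by
  have h := comp_zero_mid hB (π := P) (ρ := Q) hP hQ (j := j) (b := b)
    (γ := (γ : C.A (X.prod X))) hγ hjb
  have h2 : Q b * γ * P j = (C.comp (C.comp (P j) γ) (Q b) : C.A (X.prod X)) := by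
    rw [mul_assoc]
    rfl
  rw [h2]
  exact h

/-- (C) for `X` follows from `F^0 CH^d(X × X) = CH^d(X × X)`, `d = dim X`. -/
theorem murreC_of_mid
    (hB : ∀ π, IsCK H (X.prod X) π → ckFil C π X.dim 0 = C.gr (X.prod X) X.dim) :
    MurreC H X := by
  have key : ∀ π π', IsCK H X π → IsCK H X π' → ∀ i n : ℕ, ckFil C π i n ≤ ckFil C π' i n := by
    intro π π' h h' i n x hx
    rw [h.mem_ckFil] at hx
    rw [h'.mem_ckFil]
    refine ⟨hx.1, fun m hm => ?_⟩
    have h1 : x = ∑ j ∈ Finset.range (2 * X.dim + 1), C.act (π j) x := by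
      rw [← act_sum, h.sum, act_dg]
    rw [h1, act_map_sum]
    apply Finset.sum_eq_zero
    intro j _
    by_cases hj : 2 * i + 1 - n ≤ j
    · rw [hx.2 j hj, TheoryData.act_map_zero]
    · have h2 := comp_zero_mid hB h h' (j := j) (b := m) (γ := dg C X)
        (dg_mem C X) (by omega)
      rw [comp_dg] at h2
      rw [← C.act_comp, h2, TheoryData.act_zero]
  intro π π' h h' i n
  exact le_antisymm (key π π' h h' i n) (key π' π h' h i n)

/-- `F^0 CH^d(X × X) = CH^d(X × X)` excludes phantoms of `X`. -/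
theorem noPhantoms_of_mid
    (hB : ∀ π, IsCK H (X.prod X) π → ckFil C π X.dim 0 = C.gr (X.prod X) X.dim)
    {P : ℕ → Cor C X} (hP : IsCK H X P) :
    NoPhantoms H X := by
  intro p hp hpp hcl
  let q : Cor C X := p
  have hq : q ∈ cor0 C X := hp
  have hqq : q * q = q := hpp
  have hm : ∀ i, P i ∈ cor0 C X := hP.deg
  have htri : ∀ j b : ℕ, j < b → ∀ γ ∈ cor0 C X, P b * γ * P j = 0 := fun j b hjb γ hγ =>
    tri_mid hB hP hP hjb hγ
  have hone : ∑ i ∈ Finset.range (2 * X.dim + 1), P i = 1 := hP.sum_eq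
  -- the product of blocks
  have hblock : ∀ b j : ℕ, P b * q * P j =
      ∑ m ∈ Finset.range (2 * X.dim + 1), (P b * q * P m) * (P m * q * P j) := by
    intro b j
    have h1 : ∀ m, (P b * q * P m) * (P m * q * P j) = (P b * q) * P m * (q * P j) := by
      intro m
      have h2 : P m * P m = P m := by rw [hP.mul_eq, if_pos rfl]
      calc (P b * q * P m) * (P m * q * P j) = P b * q * (P m * P m) * (q * P j) := by
            simp only [mul_assoc]
        _ = _ := by rw [h2]
    simp only [h1]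
    rw [← Finset.sum_mul, ← Finset.mul_sum, hone, mul_one]
    calc P b * q * P j = P b * (q * q) * P j := by rw [hqq]
      _ = _ := by simp only [mul_assoc]
  -- diagonal blocks vanish
  have hdiag : ∀ i, i ≤ 2 * X.dim → P i * q * P i = 0 := by
    intro i hi
    set r : Cor C X := P i * q * P i with hr
    have hii : P i * P i = P i := by rw [hP.mul_eq, if_pos rfl]
    have hrm : r ∈ cor0 C X := (cor0 C X).mul_mem ((cor0 C X).mul_mem (hm i) hq) (hm i)
    have hrr : r * r = r := by
      have h1 := hblock i i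
      rw [Finset.sum_eq_single i] at h1
      · exact h1.symm
      · intro m _ hmi
        rcases lt_or_gt_of_ne hmi with h | h
        · rw [htri m i h q hq, zero_mul]
        · rw [htri i m h q hq, mul_zero]
      · intro h
        exact absurd (Finset.mem_range.2 (by omega)) h
    have h1 : P i * r = r := by rw [hr, ← mul_assoc, ← mul_assoc, hii]
    have h2 : r * P i = r := by rw [hr, mul_assoc, hii]
    have hrcl : H.cl (r : C.A (X.prod X)) = 0 := cl_mul3 hcl
    rcases Nat.eq_zero_or_pos X.dim with hd | hd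
    · exact zero_of_dim (H := H) hd hrm hrcl
    · -- move the phantom to another degree
      obtain ⟨s, hs, hsi⟩ : ∃ s, s ≤ 2 * X.dim ∧ s ≠ i := by
        by_cases h0 : i = 0
        · exact ⟨1, by omega, by omega⟩
        · exact ⟨0, by omega, by omega⟩
      have hQ : IsCK H X (move P r i s) := move_isCK hP hrm hrcl hrr (Ne.symm hsi) hi hs h1 h2
      have hQs : move P r i s s = P s + r := by
        unfold move
        rw [if_neg hsi, if_pos rfl]
      rcases lt_or_gt_of_ne hsi with h | h
      · -- `s < i`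
        have h3 := tri_mid hB hQ hP h (γ := 1) (cor0 C X).one_mem
        rw [hQs, mul_one, mul_add, hP.mul_eq, if_neg (Ne.symm hsi), zero_add, h1] at h3
        exact h3
      · have h3 := tri_mid hB hP hQ h (γ := 1) (cor0 C X).one_mem
        rw [hQs, mul_one, add_mul, hP.mul_eq, if_neg hsi, zero_add, h2] at h3
        exact h3
  -- all blocks vanish
  have hall : ∀ n b j : ℕ, j ≤ 2 * X.dim → j = b + n → P b * q * P j = 0 := by
    intro n
    induction n using Nat.strong_induction_on with
    | _ n ih =>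
      intro b j hj hbj
      rcases Nat.eq_zero_or_pos n with hn | hn
      · subst hn
        rw [add_zero] at hbj
        subst hbj
        exact hdiag j hj
      · rw [hblock]
        apply Finset.sum_eq_zero
        intro m hm'
        rw [Finset.mem_range] at hm'
        by_cases h1 : m < b
        · rw [htri m b h1 q hq, zero_mul]
        · by_cases h2 : j < m
          · rw [htri j m h2 q hq, mul_zero]
          · by_cases h3 : m = j
            · rw [h3, hdiag j hj, mul_zero]
            · rw [ih (m - b) (by omega) b m (by omega) (by omega), zero_mul]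
  have hfin : q = ∑ b ∈ Finset.range (2 * X.dim + 1), ∑ j ∈ Finset.range (2 * X.dim + 1),
      P b * q * P j := by
    have h1 : ∀ b, ∑ j ∈ Finset.range (2 * X.dim + 1), P b * q * P j = P b * q := by
      intro b
      rw [← Finset.mul_sum, hone, mul_one]
    simp only [h1]
    rw [← Finset.sum_mul, hone, one_mul]
  have hq0 : q = 0 := by
    rw [hfin]
    apply Finset.sum_eq_zero
    intro b _
    apply Finset.sum_eq_zero
    intro j hj
    rw [Finset.mem_range] at hj
    by_cases h : j < b
    · exact htri j b h q hq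
    · exact hall (j - b) b j (by omega) (by omega)
  exact hq0

/-- `F^0 CH^i = CH^i` for all decompositions passes to the summands, one codimension at a time. -/
theorem b0At_of_sum {ι : Type} [Fintype ι] {Xs : ι → 𝒱.Obj} {r : ι → ℕ}
    {Γ : ∀ j, C.A ((Xs j).prod Y)} {Γ' : ∀ j, C.A (Y.prod (Xs j))}
    (hS : IsMotivicSum C Y Xs r Γ Γ') (hCK : ∀ j, HasCK H (Xs j)) (j : ι) (i : ℕ)
    (hY : ∀ π, IsCK H Y π → ckFil C π (i + r j) 0 = C.gr Y ((i + r j : ℕ) : ℤ)) :
    ∀ π, IsCK H (Xs j) π → ckFil C π i 0 = C.gr (Xs j) i := by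
  classical
  intro π hπ
  choose σ hσ using hCK
  have hf1 : ∀ a, IsCK H (Xs a) (Function.update σ j π a) := by
    intro a
    by_cases h : a = j
    · subst h
      rw [Function.update_self]
      exact hπ
    · rw [Function.update_of_ne h]
      exact hσ a
  ext x
  constructor
  · intro hx
    rw [hπ.mem_ckFil] at hx
    exact hx.1
  · intro hx
    have h1 : C.act (Γ j) x ∈ C.gr Y ((i + r j : ℕ) : ℤ) := by
      have h1 := act_mem' C (hS.deg j) hx
      push_cast
      exact h1
    rw [← hY _ (sumCK_isCK hS hf1), ← mem_iff hS hf1 j i 0, Function.update_self] at h1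
    exact h1

/-- If `F^0 CH^i = CH^i` holds for one decomposition, it holds for the conjugate ones. -/
lemma b0At_of_conj {P Q : ℕ → Cor C X} (hP : IsCK H X P) (hQ : IsCK H X Q) {i : ℕ}
    (hB : ckFil C P i 0 = C.gr X i) {s t : Cor C X}
    (ht : t ∈ cor0 C X) (hc : ∀ j, Q j = s * P j * t) :
    ckFil C Q i 0 = C.gr X i := by
  ext x
  rw [hQ.mem_ckFil]
  refine ⟨fun h => h.1, fun hx => ⟨hx, fun j hj => ?_⟩⟩
  have htx : C.act (X := X) (Y := X) t x ∈ C.gr X i := act_mem0 C ht hx
  have h1 : C.act (X := X) (Y := X) t x ∈ ckFil C P i 0 := by rw [hB]; exact htx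
  rw [hP.mem_ckFil] at h1
  have h2 := h1.2 j hj
  have h3 : actC C X (Q j) x = 0 := by
    rw [hc j, map_mul, map_mul, Module.End.mul_apply, Module.End.mul_apply]
    have h4 : actC C X (P j) (actC C X t x) = 0 := h2
    rw [h4, map_zero]
  exact h3

/-- Kimura finiteness and `F^0 CH^i = CH^i` for one decomposition give it for all. -/
theorem b0At_of_kimura (hK : IsKimuraFinite C (ratFam C) X) (i : ℕ)
    (hB : ∃ ρ, IsCK H X ρ ∧ ckFil C ρ i 0 = C.gr X i) :
    ∀ π, IsCK H X π → ckFil C π i 0 = C.gr X i := by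
  intro π hπ
  obtain ⟨ρ, hρ, hρ0⟩ := hB
  obtain ⟨s, t, a1, a2, a3, a4, a5, a6⟩ := conj_of_nil (H := H)
    (fun x hx => isNilpotent_of_kimura (H := H) hK hx) hρ hπ
  exact b0At_of_conj (P := ρ) (Q := π) hρ hπ hρ0 (s := s) (t := t) a2 a6

/-- Uniqueness up to conjugation and `F^0 CH^i = CH^i` for one decomposition give it for all. -/
theorem b0At_of_unique (hK : UniqueUpToConjugation H X) (i : ℕ)
    (hB : ∃ ρ, IsCK H X ρ ∧ ckFil C ρ i 0 = C.gr X i) :
    ∀ π, IsCK H X π → ckFil C π i 0 = C.gr X i := by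
  intro π hπ
  obtain ⟨ρ, hρ, hρ0⟩ := hB
  obtain ⟨s, t, a1, a2, a3, a4, a5, a6⟩ := hK ρ π hρ hπ
  exact b0At_of_conj (P := ρ) (Q := π) hρ hπ hρ0 (s := s) (t := t) a2
    (fun j => (a6 j).trans (sandwich (H := H) s (ρ j) t).symm)

/-- Phantoms of a summand are phantoms of the sum. -/
theorem noPhantoms_of_sum {ι : Type} [Fintype ι] {Xs : ι → 𝒱.Obj} {r : ι → ℕ}
    {Γ : ∀ j, C.A ((Xs j).prod Y)} {Γ' : ∀ j, C.A (Y.prod (Xs j))}
    (hS : IsMotivicSum C Y Xs r Γ Γ') (hY : NoPhantoms H Y) (j : ι) : NoPhantoms H (Xs j) := by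
  intro p hp hpp hcl
  have h1 : tr3 C (Γ j) (Γ' j) p = 0 := by
    refine hY _ (tr3_mem (hS.deg j) (hS.deg' j) hp) ?_ ?_
    · rw [tr3_comp (hS.self j), hpp]
    · apply hom_zero_of_act
      intro a
      rw [cl_act_tr3, hcl, TheoryData.act_zero, TheoryData.act_map_zero]
  have h2 : C.comp (C.comp (Γ j) (tr3 C (Γ j) (Γ' j) p)) (Γ' j) = p := by
    rw [tr3, ← comp_assoc C (Γ j), ← comp_assoc C (Γ j) (Γ' j) p, hS.self, dg_comp,
      comp_assoc C p, hS.self, comp_dg]
  rw [← h2, h1, comp_zero, zero_comp]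

/-- Phantoms of `X` give phantoms of `X × X`. -/
theorem noPhantoms_of_sq (h : NoPhantoms H (X.prod X)) : NoPhantoms H X := by
  intro p hp hpp hcl
  have h1 : tens C p (dg C X) = 0 := by
    refine h _ ?_ ?_ ?_
    · have h1 := tens_mem (C := C) (show p ∈ C.gr (X.prod X) X.dim from hp) (dg_mem C X)
      have h2 : (((X.prod X).dim : ℕ) : ℤ) = (X.dim : ℤ) + X.dim := by
        rw [Obj.dim_prod]
        push_cast
        ring
      change tens C p (dg C X) ∈ C.gr _ _
      rw [h2]
      exact h1
    · rw [tens_comp', hpp, dg_comp]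
    · rw [cl_tens, hcl, tens, map_zero, zero_mul]
  have h2 : C.act (tens C p (dg C X)) (dg C X) = tp C p := by
    rw [act_tens C (ch_comm C), comp_dg, comp_dg]
  rw [h1, TheoryData.act_zero] at h2
  rw [← tp_tp C p, ← h2, tp_zero]

end Pool.Agent.T9h74.RV
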