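import Pool.Agent.T9h74.RV.Defs
import Pool.Agent.T9h37.MC.Conj
import Pool.Agent.T9h37.MC.Single

/-!
# Direct sum decompositions of motives and the Chow-Kunneth filtrations
-/

open CategoryTheory AlgebraicGeometry

set_option autoImplicit false

universe u v w

namespace Pool.Agent.T9h74.RV

open Pool.Agent.H914 Pool.Agent.H914.VarClass Pool.Agent.H914.VarClass.Obj Pool.Agent.W492.BB
  Pool.Agent.W550.Corr Pool.Agent.TH133 Pool.Agent.Y110 Pool.Agent.TH829.Kim Pool.Agent.T9h37.MC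

set_option linter.unusedSectionVars false

variable {k : Type u} [Field k] {𝒱 : VarClass k}

/-- The family `π` shifted by `2 r`. -/
noncomputable def shift (C : TheoryData.{u, v, 0} 𝒱 ℚ) {X : 𝒱.Obj} (π : ℕ → C.A (X.prod X))
    (r : ℕ) (n : ℕ) : C.A (X.prod X) :=
  if 2 * r ≤ n then π (n - 2 * r) else 0

/-- The correspondence `Y → X → X → Y`. -/
noncomputable def tr3 (C : TheoryData.{u, v, 0} 𝒱 ℚ) {X Y : 𝒱.Obj} (Γ : C.A (X.prod Y))
    (Γ' : C.A (Y.prod X)) (γ : C.A (X.prod X)) : C.A (Y.prod Y) :=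
  C.comp (C.comp Γ' γ) Γ

/-- The Chow-Kunneth decomposition of `Y` obtained from those of the `X_j`. -/
noncomputable def sumCK (C : TheoryData.{u, v, 0} 𝒱 ℚ) {Y : 𝒱.Obj} {ι : Type} [Fintype ι]
    {X : ι → 𝒱.Obj} (r : ι → ℕ) (Γ : ∀ j, C.A ((X j).prod Y)) (Γ' : ∀ j, C.A (Y.prod (X j)))
    (ρ : ∀ j, ℕ → C.A ((X j).prod (X j))) (n : ℕ) : C.A (Y.prod Y) :=
  ∑ j, tr3 C (Γ j) (Γ' j) (shift C (ρ j) (r j) n)

variable {C : TheoryData.{u, v, 0} 𝒱 ℚ}
  [hC : IsChowProj C] {K : Type w} [Field K]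
  {H : WeilTheoryData.{u, v, w} C K} [hH : IsWeilProj H] {X Y Z W : 𝒱.Obj}

section one

include hC

lemma tr3_zero (Γ : C.A (X.prod Y)) (Γ' : C.A (Y.prod X)) : tr3 C Γ Γ' 0 = 0 := by
  rw [tr3, comp_zero, zero_comp]

lemma tr3_sum {κ : Type*} (s : Finset κ) (Γ : C.A (X.prod Y)) (Γ' : C.A (Y.prod X))
    (γ : κ → C.A (X.prod X)) : tr3 C Γ Γ' (∑ a ∈ s, γ a) = ∑ a ∈ s, tr3 C Γ Γ' (γ a) := by
  rw [tr3, comp_sum, sum_comp]
  rfl

lemma tr3_comp {Γ : C.A (X.prod Y)} {Γ' : C.A (Y.prod X)} (h : C.comp Γ Γ' = dg C X)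
    (γ δ : C.A (X.prod X)) :
    C.comp (tr3 C Γ Γ' γ) (tr3 C Γ Γ' δ) = tr3 C Γ Γ' (C.comp γ δ) := by
  unfold tr3
  rw [comp_assoc C (C.comp Γ' γ) Γ, ← comp_assoc C Γ (C.comp Γ' δ) Γ, ← comp_assoc C Γ Γ' δ, h,
    dg_comp, comp_assoc C Γ' γ, comp_assoc C Γ' (C.comp γ δ), comp_assoc C γ δ]

lemma tr3_comp_ne {Γ : C.A (X.prod Y)} {Γ' : C.A (Y.prod X)} {Δ : C.A (Z.prod Y)}
    {Δ' : C.A (Y.prod Z)} (h : C.comp Γ Δ' = 0) (γ : C.A (X.prod X)) (δ : C.A (Z.prod Z)) :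
    C.comp (tr3 C Γ Γ' γ) (tr3 C Δ Δ' δ) = 0 := by
  unfold tr3
  rw [comp_assoc C (C.comp Γ' γ) Γ, ← comp_assoc C Γ (C.comp Δ' δ) Δ, ← comp_assoc C Γ Δ' δ, h,
    zero_comp, zero_comp, comp_zero]

lemma act_tr3 (Γ : C.A (X.prod Y)) (Γ' : C.A (Y.prod X)) (γ : C.A (X.prod X)) (y : C.A Y) :
    C.act (tr3 C Γ Γ' γ) y = C.act Γ (C.act γ (C.act Γ' y)) := by
  rw [tr3, C.act_comp, C.act_comp]

lemma tr3_mem {r : ℕ} {Γ : C.A (X.prod Y)} {Γ' : C.A (Y.prod X)}
    (h : Γ ∈ C.gr (X.prod Y) ((X.dim : ℤ) + r)) (h' : Γ' ∈ C.gr (Y.prod X) ((Y.dim : ℤ) - r))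
    {γ : C.A (X.prod X)} (hγ : γ ∈ C.gr (X.prod X) X.dim) :
    tr3 C Γ Γ' γ ∈ C.gr (Y.prod Y) Y.dim := by
  have h1 : C.comp Γ' γ ∈ C.gr (Y.prod X) ((Y.dim : ℤ) + (-(r : ℤ) + 0)) :=
    comp_mem C (by rw [← sub_eq_add_neg]; exact h') (by rw [add_zero]; exact hγ)
  have h2 := comp_mem C h1 h
  rw [tr3]
  have e : (Y.dim : ℤ) + (-(r : ℤ) + 0 + r) = Y.dim := by ring
  rwa [e] at h2

section back

variable {ι : Type} [Fintype ι] {Xs : ι → 𝒱.Obj} {r : ι → ℕ} {Γ : ∀ j, C.A ((Xs j).prod Y)}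
  {Γ' : ∀ j, C.A (Y.prod (Xs j))}

lemma act_back (hS : IsMotivicSum C Y Xs r Γ Γ') (j : ι) (x : C.A (Xs j)) :
    C.act (Γ' j) (C.act (Γ j) x) = x := by
  rw [← C.act_comp, hS.self, act_dg]

lemma act_sumCK (hS : IsMotivicSum C Y Xs r Γ Γ')
    (ρ : ∀ j, ℕ → C.A ((Xs j).prod (Xs j))) (n : ℕ) (j : ι) (x : C.A (Xs j)) :
    C.act (sumCK C r Γ Γ' ρ n) (C.act (Γ j) x) =
      C.act (Γ j) (C.act (shift C (ρ j) (r j) n) x) := by
  classical
  unfold sumCK
  rw [act_sum, Finset.sum_eq_single j]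
  · rw [act_tr3, act_back hS]
  · intro i _ hi
    rw [act_tr3, ← C.act_comp (Γ j), hS.ne j i (Ne.symm hi), TheoryData.act_zero,
      TheoryData.act_map_zero, TheoryData.act_map_zero]
  · intro h
    exact absurd (Finset.mem_univ j) h

end back

end one

include hC hH

lemma shift_comp {ρ : ℕ → C.A (X.prod X)} (h : IsCK H X ρ) (r a b : ℕ) :
    C.comp (shift C ρ r a) (shift C ρ r b) = if a = b then shift C ρ r a else 0 := by
  unfold shift
  by_cases ha : 2 * r ≤ a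
  · rw [if_pos ha]
    by_cases hb : 2 * r ≤ b
    · rw [if_pos hb, h.comp_eq]
      by_cases hab : a = b
      · rw [if_pos (by omega), if_pos hab]
      · rw [if_neg (by omega), if_neg hab]
    · rw [if_neg hb, comp_zero, if_neg (by omega)]
  · rw [if_neg ha, zero_comp]
    split_ifs <;> rfl

lemma shift_sum {ρ : ℕ → C.A (X.prod X)} (h : IsCK H X ρ) (r : ℕ) {N : ℕ}
    (hN : 2 * (X.dim + r) + 1 ≤ N) : ∑ n ∈ Finset.range N, shift C ρ r n = dg C X := by
  obtain ⟨M, rfl⟩ : ∃ M, N = 2 * r + M := ⟨N - 2 * r, by omega⟩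
  rw [Finset.sum_range_add]
  have h1 : ∑ n ∈ Finset.range (2 * r), shift C ρ r n = 0 := by
    apply Finset.sum_eq_zero
    intro n hn
    rw [Finset.mem_range] at hn
    rw [shift, if_neg (by omega)]
  have h2 : ∀ n, shift C ρ r (2 * r + n) = ρ n := by
    intro n
    rw [shift, if_pos (by omega)]
    congr 1
    omega
  simp only [h2]
  rw [h1, zero_add, h.sum_of_le (by omega)]

lemma shift_mem {ρ : ℕ → C.A (X.prod X)} (h : IsCK H X ρ) (r n : ℕ) :
    shift C ρ r n ∈ C.gr (X.prod X) X.dim := by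
  unfold shift
  split_ifs
  · exact h.deg _
  · exact Submodule.zero_mem _

lemma cl_act_tr3 (Γ : C.A (X.prod Y)) (Γ' : C.A (Y.prod X)) (γ : C.A (X.prod X)) (a : H.A Y) :
    H.act (H.cl (tr3 C Γ Γ' γ)) a = H.act (H.cl Γ) (H.act (H.cl γ) (H.act (H.cl Γ') a)) := by
  rw [tr3, cl_comp, cl_comp, H.act_comp, H.act_comp]

lemma shift_act {ρ : ℕ → C.A (X.prod X)} (h : IsCK H X ρ) (r n : ℕ) {m : ℤ} {b : H.A X}
    (hb : b ∈ H.gr X (m - 2 * r)) :
    H.act (H.cl (shift C ρ r n)) b = if m = n then b else 0 := by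
  unfold shift
  split_ifs with h1 h2 h2
  · exact h.act_self _ _ (by
      have e : ((n - 2 * r : ℕ) : ℤ) = m - 2 * r := by rw [h2]; omega
      rw [e]; exact hb)
  · exact h.act_ne _ _ _ (by omega) hb
  · rw [map_zero, TheoryData.act_zero]
    rw [H.gr_neg X _ (by omega), Submodule.mem_bot] at hb
    exact hb.symm
  · rw [map_zero, TheoryData.act_zero]

section sum

variable {ι : Type} [Fintype ι] {Xs : ι → 𝒱.Obj} {r : ι → ℕ} {Γ : ∀ j, C.A ((Xs j).prod Y)}
  {Γ' : ∀ j, C.A (Y.prod (Xs j))}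

lemma sumCK_comp [DecidableEq ι] (hS : IsMotivicSum C Y Xs r Γ Γ')
    {ρ : ∀ j, ℕ → C.A ((Xs j).prod (Xs j))} (hρ : ∀ j, IsCK H (Xs j) (ρ j)) (a b : ℕ) :
    C.comp (sumCK C r Γ Γ' ρ a) (sumCK C r Γ Γ' ρ b) =
      if a = b then sumCK C r Γ Γ' ρ a else 0 := by
  unfold sumCK
  rw [sum_comp]
  have h1 : ∀ i, C.comp (tr3 C (Γ i) (Γ' i) (shift C (ρ i) (r i) a))
      (∑ j, tr3 C (Γ j) (Γ' j) (shift C (ρ j) (r j) b)) =
      tr3 C (Γ i) (Γ' i) (if a = b then shift C (ρ i) (r i) a else 0) := by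
    intro i
    rw [comp_sum, Finset.sum_eq_single i]
    · rw [tr3_comp (hS.self i), shift_comp (hρ i)]
    · intro j _ hj
      exact tr3_comp_ne (hS.ne i j (Ne.symm hj)) _ _
    · intro h
      exact absurd (Finset.mem_univ i) h
  simp only [h1]
  split_ifs
  · rfl
  · simp only [tr3_zero, Finset.sum_const_zero]

/-- A Chow-Kunneth decomposition of `Y` from Chow-Kunneth decompositions of the `X_j`. -/
theorem sumCK_isCK (hS : IsMotivicSum C Y Xs r Γ Γ')
    {ρ : ∀ j, ℕ → C.A ((Xs j).prod (Xs j))} (hρ : ∀ j, IsCK H (Xs j) (ρ j)) :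
    IsCK H Y (sumCK C r Γ Γ' ρ) := by
  classical
  have hone : ∀ a : H.A Y, ∑ j, H.act (H.cl (Γ j)) (H.act (H.cl (Γ' j)) a) = a := by
    intro a
    have h1 : H.act (H.cl (∑ j, C.comp (Γ' j) (Γ j))) a = a := by
      rw [hS.sum, cl_dg, act_dg]
    rw [map_sum, act_sum] at h1
    rw [← h1]
    apply Finset.sum_congr rfl
    intro j _
    rw [cl_comp, H.act_comp, h1]
  have hact : ∀ (n : ℕ) (m : ℤ) (a : H.A Y), a ∈ H.gr Y m →
      H.act (H.cl (sumCK C r Γ Γ' ρ n)) a = if m = n then a else 0 := by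
    intro n m a ha
    have h1 : ∀ j, H.act (H.cl (tr3 C (Γ j) (Γ' j) (shift C (ρ j) (r j) n))) a =
        if m = n then H.act (H.cl (Γ j)) (H.act (H.cl (Γ' j)) a) else 0 := by
      intro j
      have h2 : H.act (H.cl (Γ' j)) a ∈ H.gr (Xs j) (m - 2 * r j) := by
        have h3 := actH_mem H (X := Y) (Y := Xs j) (e := -(r j : ℤ)) (m := m) (Γ := Γ' j)
          (by rw [← sub_eq_add_neg]; exact hS.deg' j) ha
        have e : m + 2 * -(r j : ℤ) = m - 2 * r j := by ring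
        rwa [e] at h3
      rw [cl_act_tr3, shift_act (hρ j) (r j) n h2]
      split_ifs
      · rfl
      · exact TheoryData.act_map_zero _ _
    unfold sumCK
    rw [map_sum, act_sum]
    simp only [h1]
    split_ifs
    · exact hone a
    · exact Finset.sum_const_zero
  refine ⟨fun n => ?_, fun n hn => ?_, fun n => ?_, fun a b hab => ?_, ?_, fun n a ha => ?_,
    fun n m a hm ha => ?_⟩
  · exact Submodule.sum_mem _ fun j _ => tr3_mem (hS.deg j) (hS.deg' j) (shift_mem (hρ j) _ _)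
  · unfold sumCK
    apply Finset.sum_eq_zero
    intro j _
    have h1 := hS.dim_le j
    rw [shift, if_pos (by omega), (hρ j).out _ (by omega), tr3_zero]
  · have h1 := sumCK_comp hS hρ n n
    rwa [if_pos rfl] at h1
  · have h1 := sumCK_comp hS hρ a b
    rwa [if_neg hab] at h1
  · unfold sumCK
    rw [Finset.sum_comm]
    rw [← hS.sum]
    apply Finset.sum_congr rfl
    intro j _
    have h1 := hS.dim_le j
    rw [← tr3_sum, shift_sum (hρ j) (r j) (by omega), tr3, comp_dg]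
  · rw [hact n n a ha, if_pos rfl]
  · rw [hact n m a ha, if_neg hm]

/-- `x ∈ F^n CH^i(X_j)` if and only if `(Γ_j)_* x ∈ F^n CH^(i + r_j)(Y)`. -/
theorem mem_iff (hS : IsMotivicSum C Y Xs r Γ Γ')
    {ρ : ∀ j, ℕ → C.A ((Xs j).prod (Xs j))} (hρ : ∀ j, IsCK H (Xs j) (ρ j)) (j : ι) (i n : ℕ)
    (x : C.A (Xs j)) : x ∈ ckFil C (ρ j) i n ↔
      C.act (Γ j) x ∈ ckFil C (sumCK C r Γ Γ' ρ) (i + r j) n := by
  classical
  rw [(hρ j).mem_ckFil, (sumCK_isCK hS hρ).mem_ckFil]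
  constructor
  · rintro ⟨hx, h⟩
    refine ⟨?_, fun m hm => ?_⟩
    · have h1 := act_mem' C (hS.deg j) hx
      push_cast
      exact h1
    · rw [act_sumCK hS ρ]
      unfold shift
      split_ifs with h2
      · rw [h (m - 2 * r j) (by omega), TheoryData.act_map_zero]
      · rw [TheoryData.act_zero, TheoryData.act_map_zero]
  · rintro ⟨hx, h⟩
    refine ⟨?_, fun m hm => ?_⟩
    · have h1 := act_mem' C (X := Y) (Y := Xs j) (e := -(r j : ℤ)) (Γ := Γ' j)
        (by rw [← sub_eq_add_neg]; exact hS.deg' j) hx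
      rw [act_back hS] at h1
      have e : ((i + r j : ℕ) : ℤ) + -(r j : ℤ) = i := by push_cast; ring
      rwa [e] at h1
    · have h1 := h (m + 2 * r j) (by omega)
      rw [act_sumCK hS ρ, shift, if_pos (by omega)] at h1
      have e : m + 2 * r j - 2 * r j = m := by omega
      rw [e] at h1
      have h2 := congrArg (C.act (Γ' j)) h1
      rwa [act_back hS, TheoryData.act_map_zero] at h2

/-- Murre's conjecture (C) for `Y` implies that correspondences of degree `r_i - r_j` from `X_i` to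
`X_j` respect the filtrations, whatever the Chow-Kunneth decompositions. -/
theorem stable_of_sum (hS : IsMotivicSum C Y Xs r Γ Γ') (hCK : ∀ j, HasCK H (Xs j))
    (hY : MurreC H Y) (i j : ι) {π : ℕ → C.A ((Xs i).prod (Xs i))}
    {ρ : ℕ → C.A ((Xs j).prod (Xs j))} (hπ : IsCK H (Xs i) π) (hρ : IsCK H (Xs j) ρ)
    {Θ : C.A ((Xs i).prod (Xs j))}
    (hΘ : C.Deg (((Xs i).dim : ℤ) + (r i - r j)) Θ) {l m n : ℕ} (hlm : l + r i = m + r j)
    {x : C.A (Xs i)} (hx : x ∈ ckFil C π l n) : C.act Θ x ∈ ckFil C ρ m n := by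
  classical
  choose σ hσ using hCK
  have hf1 : ∀ a, IsCK H (Xs a) (Function.update σ i π a) := by
    intro a
    by_cases h : a = i
    · subst h
      rw [Function.update_self]
      exact hπ
    · rw [Function.update_of_ne h]
      exact hσ a
  have hf2 : ∀ a, IsCK H (Xs a) (Function.update σ j ρ a) := by
    intro a
    by_cases h : a = j
    · subst h
      rw [Function.update_self]
      exact hρ
    · rw [Function.update_of_ne h]
      exact hσ a
  have h1 : C.act (Γ i) x ∈ ckFil C (sumCK C r Γ Γ' (Function.update σ i π)) (l + r i) n := by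
    rw [← mem_iff hS hf1 i l n x, Function.update_self]
    exact hx
  rw [hY _ _ (sumCK_isCK hS hf1) (sumCK_isCK hS hf2)] at h1
  set g : C.A (Y.prod Y) := C.comp (C.comp (Γ' i) Θ) (Γ j) with hg
  have hgm : g ∈ C.gr (Y.prod Y) Y.dim := by
    have e1 : C.comp (Γ' i) Θ ∈ C.gr (Y.prod (Xs j))
        ((Y.dim : ℤ) + (-(r i : ℤ) + (r i - r j))) :=
      comp_mem C (by rw [← sub_eq_add_neg]; exact hS.deg' i) hΘ
    have e2 := comp_mem C e1 (hS.deg j)
    have e3 : (Y.dim : ℤ) + (-(r i : ℤ) + (r i - r j) + r j) = Y.dim := by ring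
    rw [e3] at e2
    exact e2
  have h2 := stable_self (H := H) hY (P := sumCK C r Γ Γ' (Function.update σ j ρ))
    (sumCK_isCK hS hf2) (γ := g) hgm h1
  have h3 : actC C Y g (C.act (Γ i) x) = C.act (Γ j) (C.act Θ x) := by
    change C.act (C.comp (C.comp (Γ' i) Θ) (Γ j)) (C.act (Γ i) x) = _
    rw [C.act_comp, C.act_comp, act_back hS]
  rw [h3, hlm, ← mem_iff hS hf2 j m n, Function.update_self] at h2
  exact h2

theorem murreC_of_sum (hS : IsMotivicSum C Y Xs r Γ Γ') (hCK : ∀ j, HasCK H (Xs j))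
    (hY : MurreC H Y) (j : ι) : MurreC H (Xs j) := by
  have key : ∀ π π', IsCK H (Xs j) π → IsCK H (Xs j) π' → ∀ i n : ℕ,
      ckFil C π i n ≤ ckFil C π' i n := by
    intro π π' hπ hπ' i n x hx
    have h1 := stable_of_sum hS hCK hY j j hπ hπ' (Θ := dg C (Xs j))
      (by rw [sub_self, add_zero]; exact dg_mem C _) (l := i) (m := i) rfl hx
    rwa [act_dg] at h1
  exact fun π π' hπ hπ' i n => le_antisymm (key π π' hπ hπ' i n) (key π' π hπ' hπ i n)

/-- `F^0 = CH` for all Chow-Kunneth decompositions passes to the summands. -/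
theorem murreB0_of_sum (hS : IsMotivicSum C Y Xs r Γ Γ') (hCK : ∀ j, HasCK H (Xs j))
    (hY : MurreB0 H Y) (j : ι) : MurreB0 H (Xs j) := by
  classical
  intro π hπ i
  choose σ hσ using hCK
  have hf1 : ∀ a, IsCK H (Xs a) (Function.update σ j π a) := by
    intro a
    by_cases h : a = j
    · subst h
      rw [Function.update_self]
      exact hπ
    · rw [Function.update_of_ne h]
      exact hσ a
  ext x
  constructor
  · intro hx
    rw [hπ.mem_ckFil] at hx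
    exact hx.1
  · intro hx
    have h1 : C.act (Γ j) x ∈ C.gr Y ((i + r j : ℕ) : ℤ) := by
      have h1 := act_mem' C (hS.deg j) hx
      push_cast
      exact h1
    rw [← hY _ (sumCK_isCK hS hf1) (i + r j), ← mem_iff hS hf1 j i 0, Function.update_self] at h1
    exact h1

end sum

/-- Independence of one step of the filtration passes to the summands. -/
theorem indep_of_sum {ι : Type} [Fintype ι] {Xs : ι → 𝒱.Obj} {r : ι → ℕ}
    {Γ : ∀ j, C.A ((Xs j).prod Y)} {Γ' : ∀ j, C.A (Y.prod (Xs j))}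
    (hS : IsMotivicSum C Y Xs r Γ Γ') (hCK : ∀ j, HasCK H (Xs j)) (j : ι) (i n : ℕ)
    (hY : ∀ π π', IsCK H Y π → IsCK H Y π' → ckFil C π (i + r j) n = ckFil C π' (i + r j) n) :
    ∀ π π', IsCK H (Xs j) π → IsCK H (Xs j) π' → ckFil C π i n = ckFil C π' i n := by
  classical
  intro π π' hπ hπ'
  choose σ hσ using hCK
  have hf : ∀ τ : ℕ → C.A ((Xs j).prod (Xs j)), IsCK H (Xs j) τ →
      ∀ a, IsCK H (Xs a) (Function.update σ j τ a) := by
    intro τ hτ a
    by_cases h : a = j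
    · subst h
      rw [Function.update_self]
      exact hτ
    · rw [Function.update_of_ne h]
      exact hσ a
  ext x
  have h1 := mem_iff hS (hf π hπ) j i n x
  have h2 := mem_iff hS (hf π' hπ') j i n x
  rw [Function.update_self] at h1 h2
  rw [h1, h2, hY _ _ (sumCK_isCK hS (hf π hπ)) (sumCK_isCK hS (hf π' hπ'))]

/-- Kimura finiteness and `F^0 = CH` for one decomposition give `F^0 = CH` for all. -/
theorem murreB0_of_kimura (hK : IsKimuraFinite C (ratFam C) X) (hB : HasB0 H X) :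
    MurreB0 H X := by
  intro π hπ i
  obtain ⟨ρ, hρ, hρ0⟩ := hB
  obtain ⟨s, t, a1, a2, a3, a4, a5, a6⟩ := conj_of_nil (H := H)
    (fun x hx => isNilpotent_of_kimura (H := H) hK hx) hρ hπ
  exact b0_of_conj (P := ρ) (Q := π) hρ hπ hρ0 (s := s) (t := t) a2 a6 i

end Pool.Agent.T9h74.RV
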